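import Pool.Agent.U874.RS.StmC

set_option autoImplicit false

/-! Project RS part C, package MUL: the consecutive angles are determined up to their order. -/

namespace Pool.Agent.U139.RSC

open Pool.Agent.H212AN Pool.Agent.U874.RS
open scoped Real

theorem card_filter_val {n : ℕ} (f : Fin n → ℝ) (y : ℝ) :
    (Finset.univ.filter fun i => f i = y).card =
      Multiset.count y ((Finset.univ : Finset (Fin n)).val.map f) := by
  rw [Multiset.count_map]
  show Multiset.card (Finset.univ.filter fun i => f i = y).val = _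
  rw [Finset.filter_val]
  congr 1
  exact Multiset.filter_congr fun i _ => eq_comm

theorem perm_of_multiset {n : ℕ} (θ θ' : Fin n → ℝ)
    (h : (Finset.univ : Finset (Fin n)).val.map θ = (Finset.univ : Finset (Fin n)).val.map θ') :
    ∃ σ : Equiv.Perm (Fin n), ∀ i, θ' i = θ (σ i) := by
  classical
  have hc : ∀ y : ℝ, Fintype.card {i // θ' i = y} = Fintype.card {i // θ i = y} := by
    intro y
    rw [Fintype.card_subtype, Fintype.card_subtype, card_filter_val, card_filter_val, h]
  let e : ∀ y : ℝ, {i // θ' i = y} ≃ {i // θ i = y} := fun y => Fintype.equivOfCardEq (hc y)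
  refine ⟨(Equiv.sigmaFiberEquiv θ').symm.trans
    ((Equiv.sigmaCongrRight e).trans (Equiv.sigmaFiberEquiv θ)), fun i => ?_⟩
  exact (e (θ' i) ⟨i, rfl⟩).2.symm

theorem gp_inj {a r s t : ℝ} (ha : 0 < a) (hs : 0 < s) (hs' : s < π) (ht : 0 < t) (ht' : t < π)
    (h : gp a r s = gp a r t) : s = t := by
  unfold gp at h
  have hpi := Real.pi_pos
  have h1 : Real.sin (s / 2) = Real.sin (t / 2) := by
    have h2 : 2 * a * Real.sin (s / 2) = 2 * a * Real.sin (t / 2) := by linarith
    exact mul_left_cancel₀ (by positivity) h2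
  have h3 := Real.injOn_sin (show s / 2 ∈ Set.Icc (-(π / 2)) (π / 2) from
    ⟨by linarith, by linarith⟩) (show t / 2 ∈ Set.Icc (-(π / 2)) (π / 2) from
    ⟨by linarith, by linarith⟩) h1
  linarith

theorem count_eq {n : ℕ} {a r h t : ℝ} {θ : Fin n → ℝ} (ha : 0 < a) (hpos : ∀ i, 0 < θ i)
    (hpi : ∀ i, gp a r (θ i) < 3 / 2 * h → θ i < π) (ht : gp a r t < 3 / 2 * h) :
    Multiset.count t ((Finset.univ : Finset (Fin n)).val.map θ) =
      if 0 < t ∧ t < π then mu' (fun i => gp a r (θ i)) (gp a r t) else 0 := by
  rw [← card_filter_val]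
  split_ifs with h1
  · unfold mu'
    congr 1
    refine Finset.filter_congr fun i _ => ⟨fun h2 => ?_, fun h2 => ?_⟩
    · show gp a r (θ i) = gp a r t
      rw [h2]
    · have h2' : gp a r (θ i) = gp a r t := h2
      have h3 : gp a r (θ i) < 3 / 2 * h := by rw [h2']; exact ht
      exact gp_inj ha (hpos i) (hpi i h3) h1.1 h1.2 h2'
  · rw [Finset.card_eq_zero, Finset.filter_eq_empty_iff]
    intro i _ h2
    refine h1 ⟨h2 ▸ hpos i, ?_⟩
    have h3 : gp a r (θ i) < 3 / 2 * h := by rw [h2]; exact ht
    rw [← h2]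
    exact hpi i h3

theorem t_MUL (h : P_CNS) : P_MUL := by
  classical
  intro n a r g θ θ' hn ha hr hg hA hA' hge hge' hmu hi
  obtain ⟨i₀, hi₀⟩ := hi
  have c1 := (h n a r g θ hn ha hr hg hA hge).2.2
  have c2 := (h n a r g θ' hn ha hr hg hA' hge').2.2
  refine perm_of_multiset θ θ' ?_
  set m := (Finset.univ : Finset (Fin n)).val.map θ with hm
  set m' := (Finset.univ : Finset (Fin n)).val.map θ' with hm'
  set p : ℝ → Prop := fun t => gp a r t < 3 / 2 * g with hp
  have hF : Multiset.filter p m = Multiset.filter p m' := by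
    ext t
    rw [Multiset.count_filter, Multiset.count_filter]
    split_ifs with ht
    · rw [count_eq (h := g) ha hA.1 c1 ht, count_eq (h := g) ha hA'.1 c2 ht]
      split_ifs
      · exact hmu _ ht
      · rfl
    · rfl
  have hs : m.sum = m'.sum := by
    have h1 : m.sum = ∑ i, θ i := rfl
    have h2 : m'.sum = ∑ i, θ' i := rfl
    rw [h1, h2, hA.2, hA'.2]
  have hcard : Multiset.card m = Multiset.card m' := by rw [hm, hm', Multiset.card_map, Multiset.card_map]
  have d1 := Multiset.filter_add_not p m
  have d2 := Multiset.filter_add_not p m'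
  have hN : Multiset.card (Multiset.filter (fun a => ¬ p a) m) ≤ 1 := by
    rw [hm, Multiset.filter_map, Multiset.card_map]
    have h3 : (Finset.univ.filter ((fun a => ¬ p a) ∘ θ) : Finset (Fin n)) ⊆ {i₀} := by
      intro i hi
      rw [Finset.mem_filter] at hi
      rw [Finset.mem_singleton]
      by_contra hne
      exact hi.2 (hi₀ i hne)
    have h4 := Finset.card_le_card h3
    rw [Finset.card_singleton] at h4
    rw [← Finset.filter_val]
    exact h4
  have hcN : Multiset.card (Multiset.filter (fun a => ¬ p a) m) =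
      Multiset.card (Multiset.filter (fun a => ¬ p a) m') := by
    have e1 := congrArg Multiset.card d1
    have e2 := congrArg Multiset.card d2
    rw [Multiset.card_add] at e1 e2
    rw [hF] at e1
    omega
  have hsN : (Multiset.filter (fun a => ¬ p a) m).sum = (Multiset.filter (fun a => ¬ p a) m').sum := by
    have e1 := congrArg Multiset.sum d1
    have e2 := congrArg Multiset.sum d2
    rw [Multiset.sum_add] at e1 e2
    rw [hF] at e1
    linarith
  have hNN : Multiset.filter (fun a => ¬ p a) m = Multiset.filter (fun a => ¬ p a) m' := by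
    rcases Nat.eq_zero_or_pos (Multiset.card (Multiset.filter (fun a => ¬ p a) m)) with h0 | h0
    · have h0' : Multiset.card (Multiset.filter (fun a => ¬ p a) m') = 0 := by
        rw [← hcN]; exact h0
      rw [Multiset.card_eq_zero.1 h0, Multiset.card_eq_zero.1 h0']
    · have h1 : Multiset.card (Multiset.filter (fun a => ¬ p a) m) = 1 := by omega
      obtain ⟨x, hx⟩ := Multiset.card_eq_one.1 h1
      have h1' : Multiset.card (Multiset.filter (fun a => ¬ p a) m') = 1 := by
        rw [← hcN]; exact h1
      obtain ⟨y, hy⟩ := Multiset.card_eq_one.1 h1'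
      rw [hx, hy, Multiset.sum_singleton, Multiset.sum_singleton] at hsN
      rw [hx, hy, hsN]
  rw [← d1, ← d2, hF, hNN]

end Pool.Agent.U139.RSC
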